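import Mathlib

/-! Borel hull operations with respect to the null ideal, and the cardinals add and cof. -/

set_option autoImplicit false

namespace Pool.Agent.H952Z.Hull

open MeasureTheory Cardinal

/-- The ideal of Lebesgue null subsets of the real line. -/
def nullSets : Set (Set ℝ) := {A | volume A = 0}

/-- The Lebesgue measurable subsets of the real line. -/
def lebesgueSets : Set (Set ℝ) := {A | NullMeasurableSet A volume}

/-- `ψ` is a monotone Borel hull operation on the family `F` with respect to the null ideal:
for `A ∈ F` the set `ψ A` is Borel, contains `A`, and `ψ A \ A` is null; and `A ⊆ B` implies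
`ψ A ⊆ ψ B` for `A, B ∈ F`. -/
def IsMonotoneHull (F : Set (Set ℝ)) (ψ : F → Set ℝ) : Prop :=
  (∀ A : F, @MeasurableSet ℝ (borel ℝ) (ψ A) ∧ A.1 ⊆ ψ A ∧ volume (ψ A \ A.1) = 0) ∧
    ∀ A B : F, A.1 ⊆ B.1 → ψ A ⊆ ψ B

/-- The additivity of the null ideal: the least size of a family of null sets whose union is not
null. -/
noncomputable def addNull : Cardinal.{0} :=
  sInf {c | ∃ F : Set (Set ℝ), F ⊆ nullSets ∧ ⋃₀ F ∉ nullSets ∧ #F = c}

/-- The cofinality of the null ideal: the least size of a family of null sets such that every null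
set is contained in a member of the family. -/
noncomputable def cofNull : Cardinal.{0} :=
  sInf {c | ∃ B : Set (Set ℝ), B ⊆ nullSets ∧ (∀ A ∈ nullSets, ∃ C ∈ B, A ⊆ C) ∧ #B = c}

end Pool.Agent.H952Z.Hull
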