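import Pool.Agent.H952Z.Hull.MA3
import Pool.Agent.H952Z.FMA.Main

/-! From the full Martin axiom to the hull statements. -/

set_option autoImplicit false

namespace Pool.Agent.H952Z.Hull

open MeasureTheory Set Cardinal Pool.Agent.H952Z.FMA Pool.Agent.Helper292.ForceCH

universe v

lemma mai_of {K : Type v} {ι : Type} (g : K → ι) (hg : Function.Surjective g)
    (h : MartinAxiomFor K) : MAi ι := by
  intro Q _ hQ hc D hD
  obtain ⟨G, h1, -, h3, h4⟩ := h (ULift.{1} Q) ⟨⟨hQ.some⟩⟩ (by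
      intro A hA
      have h2 := hc (ULift.down '' A) (by
        rintro _ ⟨a, ha, rfl⟩ _ ⟨b, hb, rfl⟩ ⟨r, hr1, hr2⟩
        by_contra hne
        exact hA a ha b hb (fun h => hne (h ▸ rfl)) ⟨⟨r⟩, hr1, hr2⟩)
      exact Set.countable_of_injective_of_countable_image ULift.down_injective.injOn h2)
    (fun k => {x | x.down ∈ D (g k)}) (fun k x => by
      obtain ⟨r, h1, h2⟩ := hD (g k) x.down
      exact ⟨⟨r⟩, h1, h2⟩)
  refine ⟨ULift.down '' G, ?_, ?_, fun i => ?_⟩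
  · obtain ⟨x, hx⟩ := h1
    exact ⟨_, x, hx, rfl⟩
  · rintro _ ⟨a, ha, rfl⟩ _ ⟨b, hb, rfl⟩
    obtain ⟨z, hz, h5, h6⟩ := h3 a b ⟨ha, hb⟩
    exact ⟨_, ⟨z, hz, rfl⟩, h5, h6⟩
  · obtain ⟨k, rfl⟩ := hg i
    obtain ⟨x, hx, hx'⟩ := h4 k
    exact ⟨_, ⟨x, hx, rfl⟩, _, hx', le_rfl⟩

lemma mai_lt (h : MartinAxiom) (ι : Type) (hι : #ι < 𝔠) : MAi ι := by
  refine mai_of (K := ULift.{1} ι) ULift.down ULift.down_surjective (h _ ?_)
  rintro ⟨E, hE⟩
  have hs : Function.Surjective fun i : ι => E ⟨i⟩ := fun x => by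
    obtain ⟨k, hk⟩ := hE x
    exact ⟨k.down, Set.ext fun n => (hk n).symm⟩
  have := mk_le_of_surjective hs
  rw [mk_set, mk_nat, two_power_aleph0] at this
  exact absurd hι (not_lt.2 this)

lemma aleph1_lt (h : MartinAxiomFor Om) : (ℵ₁ : Cardinal.{0}) < 𝔠 := by
  by_contra hc
  push Not at hc
  have h1 : #ℝ ≤ #Om := by rw [mk_real]; simpa using hc
  obtain ⟨f⟩ := (Cardinal.le_def _ _).1 h1
  have h2 := null_iUnion (mai_of id Function.surjective_id h)
    (fun a => {Function.invFun f a}) (fun _ => by simp)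
  have h3 : (⋃ a, {Function.invFun f a} : Set ℝ) = Set.univ := by
    rw [iUnion_singleton_eq_range]
    exact (Function.invFun_surjective f.injective).range_eq
  rw [h3] at h2
  simp at h2

theorem force_part : ∃ (P : Type 1) (_ : Preorder P), Nonempty P ∧
    ∀ p : P, p ∈ OmegaOnePreserved P ∧ p ∈ MAHolds P ∧ p ∈ MAForHolds P Om := by
  obtain ⟨P, i, h1, h2, h3, h4⟩ := FMA.exists_forcing
  exact ⟨P, i, h1, fun p => ⟨omegaOnePreserved_of_ccc h2 p, h3 p, h4 Om p⟩⟩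

theorem zfc_part (h : MartinAxiom) (h1 : MartinAxiomFor Om) :
    addNull = cofNull ∧ (∃ ψ : nullSets → Set ℝ, IsMonotoneHull nullSets ψ) ∧
      ¬ ∃ ψ : lebesgueSets → Set ℝ, IsMonotoneHull lebesgueSets ψ :=
  zfc_main (mai_lt h) (aleph1_lt h1)

end Pool.Agent.H952Z.Hull
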