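import Pool.Agent.H952Z.Hull.Defs

/-! Consequences of Martin's axiom: additivity of measure, covers of Borel sets by closed sets. -/

set_option autoImplicit false

namespace Pool.Agent.H952Z.Hull

open MeasureTheory Set

universe v

/-- countable chain condition -/
def Ccc (Q : Type) [Preorder Q] : Prop :=
  ∀ A : Set Q, (∀ a ∈ A, ∀ b ∈ A, (∃ r, r ≤ a ∧ r ≤ b) → a = b) → A.Countable

/-- Martin's axiom for families of dense sets indexed by `ι` (directed form) -/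
def MAi (ι : Type v) : Prop :=
  ∀ (Q : Type) [Preorder Q] [Nonempty Q], Ccc Q → ∀ D : ι → Set Q, (∀ i q, ∃ r ∈ D i, r ≤ q) →
    ∃ G : Set Q, G.Nonempty ∧ (∀ a ∈ G, ∀ b ∈ G, ∃ r ∈ G, r ≤ a ∧ r ≤ b) ∧
      ∀ i, ∃ a ∈ G, ∃ d ∈ D i, a ≤ d

lemma ccc_of_linked {Q T : Type} [Preorder Q] [Countable T] (f : Q → T)
    (hf : ∀ a b, f a = f b → ∃ r, r ≤ a ∧ r ≤ b) : Ccc Q := by
  intro A hA
  apply Set.MapsTo.countable_of_injOn (f := f) (t := univ) (mapsTo_univ _ _) _ countable_univ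
  intro a ha b hb hab
  exact hA a ha b hb (hf a b hab)

/-- finite unions of basic open sets -/
def FU : Set (Set ℝ) := {V | ∃ s : Set (Set ℝ), s.Finite ∧ s ⊆ TopologicalSpace.countableBasis ℝ ∧
  V = ⋃₀ s}

lemma FU_countable : FU.Countable := by
  have h := Set.countable_ofPred_finite_subset (TopologicalSpace.countable_countableBasis ℝ)
  refine (h.image (fun s => ⋃₀ s)).mono ?_
  rintro V ⟨s, h1, h2, rfl⟩
  exact ⟨s, ⟨h1, h2⟩, rfl⟩

lemma exists_FU {K U : Set ℝ} (hK : IsCompact K) (hU : IsOpen U) (hKU : K ⊆ U) :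
    ∃ V ∈ FU, K ⊆ V ∧ V ⊆ U := by
  let C : Set (Set ℝ) := {b | b ∈ TopologicalSpace.countableBasis ℝ ∧ b ⊆ U}
  have hcov : K ⊆ ⋃ b ∈ C, b := by
    intro x hx
    obtain ⟨b, hb, hxb, hbU⟩ :=
      (TopologicalSpace.isBasis_countableBasis ℝ).exists_subset_of_mem_open (hKU hx) hU
    exact mem_biUnion (show b ∈ C from ⟨hb, hbU⟩) hxb
  obtain ⟨s, hs, hfin, hcov'⟩ := hK.elim_finite_subcover_image (b := C) (c := fun b => b)
    (fun b hb => TopologicalSpace.isOpen_of_mem_countableBasis hb.1) hcov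
  refine ⟨⋃₀ s, ⟨s, hfin, fun b hb => (hs hb).1, rfl⟩, ?_, ?_⟩
  · rwa [sUnion_eq_biUnion]
  · exact sUnion_subset fun b hb => (hs hb).2

/-- The amoeba order. -/
def Amoeba (ε : ENNReal) : Type := {U : Set ℝ // IsOpen U ∧ volume U < ε}

instance (ε : ENNReal) : Preorder (Amoeba ε) where
  le a b := b.1 ⊆ a.1
  le_refl _ := subset_rfl
  le_trans _ _ _ h h' := h'.trans h

lemma amoeba_ccc (ε : ENNReal) : Ccc (Amoeba ε) := by
  have h : ∀ a : Amoeba ε, ∃ p : ℕ × FU, volume a.1 + (p.1 : ENNReal)⁻¹ < ε ∧ p.2.1 ⊆ a.1 ∧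
      volume (a.1 \ p.2.1) < (p.1 : ENNReal)⁻¹ := by
    intro a
    obtain ⟨δ, hδ, hδ'⟩ := ENNReal.lt_iff_exists_add_pos_lt.1 a.2.2
    obtain ⟨n, hn⟩ := ENNReal.exists_inv_nat_lt (a := δ) (by simpa using hδ.ne')
    obtain ⟨K, hK1, hK2, hK3⟩ := a.2.1.measurableSet.exists_isCompact_sdiff_lt (μ := volume)
      (a.2.2.trans_le le_top).ne (ε := (n : ENNReal)⁻¹) (by simp)
    obtain ⟨V, hV, hKV, hVa⟩ := exists_FU hK2 a.2.1 hK1
    refine ⟨(n, ⟨V, hV⟩), lt_of_le_of_lt (by gcongr) hδ', hVa, lt_of_le_of_lt ?_ hK3⟩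
    exact measure_mono (sdiff_subset_sdiff_right hKV)
  choose f hf using h
  have : Countable FU := FU_countable.to_subtype
  refine ccc_of_linked f fun a b hab => ?_
  refine ⟨⟨a.1 ∪ b.1, a.2.1.union b.2.1, ?_⟩, subset_union_left, subset_union_right⟩
  have h1 : a.1 ∪ b.1 ⊆ a.1 ∪ (b.1 \ (f b).2.1) := by
    rintro x (hx | hx)
    · exact Or.inl hx
    · by_cases h : x ∈ (f b).2.1
      · rw [← hab] at h
        exact Or.inl ((hf a).2.1 h)
      · exact Or.inr ⟨hx, h⟩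
  calc volume (a.1 ∪ b.1) ≤ volume a.1 + volume (b.1 \ (f b).2.1) :=
        (measure_mono h1).trans (measure_union_le _ _)
    _ ≤ volume a.1 + ((f a).1 : ENNReal)⁻¹ := by
        gcongr
        rw [hab]
        exact (hf b).2.2.le
    _ < ε := (hf a).1

lemma directed_finite {Q : Type} [Preorder Q] {G : Set Q} (hne : G.Nonempty)
    (hG : ∀ a ∈ G, ∀ b ∈ G, ∃ r ∈ G, r ≤ a ∧ r ≤ b) (s : Set Q) (hs : s.Finite) (hsG : s ⊆ G) :
    ∃ r ∈ G, ∀ a ∈ s, r ≤ a := by
  induction s, hs using Set.Finite.induction_on with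
  | empty => obtain ⟨r, hr⟩ := hne; exact ⟨r, hr, by simp⟩
  | @insert a s _ _ ih =>
    obtain ⟨r, hr, h⟩ := ih ((subset_insert _ _).trans hsG)
    obtain ⟨r', hr', h1, h2⟩ := hG r hr a (hsG (mem_insert _ _))
    refine ⟨r', hr', ?_⟩
    rintro b (rfl | hb)
    · exact h2
    · exact h1.trans (h b hb)

theorem null_iUnion {ι : Type v} (h : MAi ι) (N : ι → Set ℝ) (hN : ∀ i, volume (N i) = 0) :
    volume (⋃ i, N i) = 0 := by
  have key : ∀ ε : ENNReal, 0 < ε → ε ≠ ⊤ → volume (⋃ i, N i) ≤ ε := by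
    intro ε hε hε'
    have : Nonempty (Amoeba ε) := ⟨⟨∅, isOpen_empty, by simpa using hε⟩⟩
    obtain ⟨G, hne, hG, hD⟩ := h (Amoeba ε) (amoeba_ccc ε) (fun i => {U | N i ⊆ U.1}) (by
      intro i q
      have h1 : volume (q.1 ∪ N i) < ε := by
        refine lt_of_le_of_lt (measure_union_le _ _) ?_
        rw [hN i, add_zero]
        exact q.2.2
      obtain ⟨U, hU1, hU2, hU3⟩ := Set.exists_isOpen_lt_of_lt _ _ h1
      exact ⟨⟨U, hU2, hU3⟩, subset_union_right.trans hU1, subset_union_left.trans hU1⟩)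
    let W : Set ℝ := ⋃ a ∈ G, a.1
    have hW : IsOpen W := isOpen_biUnion fun a _ => a.2.1
    have h1 : ⋃ i, N i ⊆ W := by
      refine iUnion_subset fun i => ?_
      obtain ⟨a, ha, d, hd, had⟩ := hD i
      have e1 : N i ⊆ d.1 := hd
      have e2 : d.1 ⊆ a.1 := had
      exact (e1.trans e2).trans (subset_biUnion_of_mem (u := fun a : Amoeba ε => a.1) ha)
    refine (measure_mono h1).trans ?_
    by_contra hc
    push Not at hc
    obtain ⟨K, hKW, hK, hεK⟩ := hW.exists_lt_isCompact hc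
    obtain ⟨s, hs, hfin, hcov⟩ := hK.elim_finite_subcover_image (b := G)
      (c := fun a : Amoeba ε => a.1) (fun a _ => a.2.1) hKW
    obtain ⟨r, -, hr⟩ := directed_finite hne hG s hfin hs
    have h2 : K ⊆ r.1 := hcov.trans (iUnion₂_subset fun a ha => hr a ha)
    exact absurd ((hεK.trans_le (measure_mono h2)).trans r.2.2) (lt_irrefl _)
  refine le_antisymm ?_ zero_le
  refine ENNReal.le_of_forall_pos_le_add fun ε hε _ => ?_
  rw [zero_add]
  exact key ε (by exact_mod_cast hε) ENNReal.coe_ne_top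

theorem nullMeasurable_iUnion {ι : Type v} (h : MAi ι) (K : ι → Set ℝ)
    (hK : ∀ i, MeasurableSet (K i)) : NullMeasurableSet (⋃ i, K i) volume := by
  obtain ⟨D, hD, hDc, hae⟩ := Measure.exists_ae_subset_biUnion_countable (volume : Measure ℝ)
    (C := range K) (by rintro _ ⟨i, rfl⟩; exact hK i)
  have h1 : ⋃ i, K i = ⋃₀ D ∪ ⋃ i, (K i \ ⋃₀ D) := by
    apply Subset.antisymm
    · refine iUnion_subset fun i x hx => ?_
      by_cases hx' : x ∈ ⋃₀ D
      · exact Or.inl hx'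
      · exact Or.inr (mem_iUnion.2 ⟨i, hx, hx'⟩)
    · refine union_subset (sUnion_subset fun s hs => ?_) (iUnion_mono fun i => sdiff_subset)
      obtain ⟨i, rfl⟩ := hD hs
      exact subset_iUnion K i
  rw [h1]
  refine NullMeasurableSet.union ?_ (NullMeasurableSet.of_null (null_iUnion h _ fun i => ?_))
  · refine (MeasurableSet.sUnion hDc fun s hs => ?_).nullMeasurableSet
    obtain ⟨i, rfl⟩ := hD hs
    exact hK i
  · exact ae_le_set.1 (hae _ (mem_range_self i))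

/-- cylinders whose image is not covered by countably many of the sets -/
def Cyl (big : Set (ℕ → ℕ) → Prop) : Type :=
  {p : ℕ × (ℕ → ℕ) // big (PiNat.cylinder (E := fun _ => ℕ) p.2 p.1)}

instance (big : Set (ℕ → ℕ) → Prop) : Preorder (Cyl big) where
  le a b := b.1.1 ≤ a.1.1 ∧ ∀ i < b.1.1, a.1.2 i = b.1.2 i
  le_refl _ := ⟨le_rfl, fun _ _ => rfl⟩
  le_trans _ _ _ h h' := ⟨h'.1.trans h.1, fun i hi => (h.2 i (hi.trans_le h'.1)).trans (h'.2 i hi)⟩

theorem countable_subcover {ι : Type} (h : MAi (ι ⊕ ℕ)) (K : ι → Set ℝ)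
    (hK : ∀ i, IsClosed (K i)) (B : Set ℝ) (hB : MeasurableSet B) (hBK : B ⊆ ⋃ i, K i) :
    ∃ S : Set ι, S.Countable ∧ B ⊆ ⋃ i ∈ S, K i := by
  have han := hB.analyticSet
  rw [AnalyticSet] at han
  rcases han with rfl | ⟨f, hf, rfl⟩
  · exact ⟨∅, countable_empty, empty_subset _⟩
  by_contra hcon
  let small : Set (ℕ → ℕ) → Prop := fun Z => ∃ S : Set ι, S.Countable ∧ f '' Z ⊆ ⋃ i ∈ S, K i
  let big : Set (ℕ → ℕ) → Prop := fun Z => ¬ small Z
  have hne : Nonempty (Cyl big) := ⟨⟨(0, fun _ => 0), by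
    simp only [big, small, PiNat.cylinder_zero, image_univ]
    exact hcon⟩⟩
  have hpt : ∀ (q : Cyl big) (i : Option ι), ∃ x ∈ PiNat.cylinder (E := fun _ => ℕ) q.1.2 q.1.1,
      (∀ j, i = some j → f x ∉ K j) ∧ ∀ n, big (PiNat.cylinder (E := fun _ => ℕ) x n) := by
    intro q i
    by_contra hc
    push Not at hc
    apply q.2
    have h1 : ∀ l : List ℕ, ∃ S : Set ι, S.Countable ∧ ∀ x : ℕ → ℕ, ∀ n, PiNat.res x n = l →
        small (PiNat.cylinder (E := fun _ => ℕ) x n) → f x ∈ ⋃ i ∈ S, K i := by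
      intro l
      by_cases hl : ∃ x : ℕ → ℕ, ∃ n, PiNat.res x n = l ∧
          small (PiNat.cylinder (E := fun _ => ℕ) x n)
      · obtain ⟨x, n, hx, S, hS, hS'⟩ := hl
        refine ⟨S, hS, fun y m hy _ => hS' ⟨y, ?_, rfl⟩⟩
        have hmn : m = n := by rw [← PiNat.res_length y m, hy, ← hx, PiNat.res_length]
        subst hmn
        rw [PiNat.cylinder_eq_res]
        exact hy.trans hx.symm
      · exact ⟨∅, countable_empty, fun x n h1 h2 => absurd ⟨x, n, h1, h2⟩ hl⟩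
    choose S hS hS' using h1
    refine ⟨{j | i = some j} ∪ ⋃ l, S l, Countable.union ?_ (countable_iUnion hS), ?_⟩
    · apply Set.Subsingleton.countable
      intro a ha b hb
      exact Option.some_injective _ (ha.symm.trans hb)
    · rintro _ ⟨x, hx, rfl⟩
      by_cases hj : ∀ j, i = some j → f x ∉ K j
      · obtain ⟨n, hn⟩ := hc x hx hj
        obtain ⟨j, hj1, hj2⟩ := mem_iUnion₂.1 (hS' _ x n rfl (not_not.1 hn))
        exact mem_biUnion (Or.inr (mem_iUnion.2 ⟨_, hj1⟩)) hj2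
      · push Not at hj
        obtain ⟨j, hj1, hj2⟩ := hj
        exact mem_biUnion (Or.inl hj1) hj2
  obtain ⟨G, -, hG, hD⟩ := h (Cyl big) (ccc_of_linked (fun q => PiNat.res q.1.2 q.1.1) (by
      intro a b hab
      have hmn : a.1.1 = b.1.1 := by
        rw [← PiNat.res_length a.1.2 a.1.1, hab, PiNat.res_length]
      refine ⟨a, le_rfl, hmn.ge, fun i hi => ?_⟩
      rw [hmn] at hab
      exact PiNat.res_eq_res.1 hab hi))
    (Sum.elim (fun j => {q | ∀ x ∈ PiNat.cylinder (E := fun _ => ℕ) q.1.2 q.1.1, f x ∉ K j})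
      (fun n => {q | n ≤ q.1.1})) (by
      rintro (j | n) q
      · obtain ⟨x, hx, h1, h2⟩ := hpt q (some j)
        obtain ⟨n, hn⟩ := PiNat.exists_disjoint_cylinder (E := fun _ => ℕ)
          ((hK j).preimage hf) (x := x) (h1 j rfl)
        refine ⟨⟨(max n q.1.1, x), h2 _⟩, fun y hy hyK => ?_, le_max_right _ _, hx⟩
        exact Set.disjoint_left.1 hn hyK (PiNat.cylinder_anti x (le_max_left _ _) hy)
      · obtain ⟨x, hx, -, h2⟩ := hpt q none
        exact ⟨⟨(max n q.1.1, x), h2 _⟩, (le_max_left n q.1.1 :), le_max_right _ _, hx⟩)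
  have h2 : ∀ n : ℕ, ∃ a ∈ G, n ≤ a.1.1 := fun n => by
    obtain ⟨a, ha, d, hd, had⟩ := hD (Sum.inr n)
    exact ⟨a, ha, le_trans hd had.1⟩
  choose a ha ha' using h2
  let x : ℕ → ℕ := fun i => (a (i + 1)).1.2 i
  obtain ⟨j, hj⟩ := mem_iUnion.1 (hBK (mem_range_self x))
  obtain ⟨b, hb, d, hd, hbd⟩ := hD (Sum.inl j)
  refine hd x (fun i hi => ?_) hj
  obtain ⟨r, -, h3, h4⟩ := hG b hb (a (i + 1)) (ha _)
  have e1 := h4.2 i (Nat.lt_of_lt_of_le (Nat.lt_succ_self i) (ha' _))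
  have e2 := (h3.trans hbd).2 i hi
  exact e1.symm.trans e2

end Pool.Agent.H952Z.Hull
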