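import Pool.Agent.H952Z.Hull.MA1

/-! Under Martin's axiom for `ℵ₁` dense sets there is no monotone Borel hull operation on the
measurable sets. -/

set_option autoImplicit false

namespace Pool.Agent.H952Z.Hull

open MeasureTheory Set Cardinal

/-- countable ordinals -/
abbrev W1 : Type := (ℵ₁ : Cardinal.{0}).ord.ToType

lemma mk_W1 : #W1 = ℵ₁ := by simp

lemma countable_Iio (a : W1) : (Iio a).Countable := by
  rw [← Cardinal.le_aleph0_iff_set_countable, ← Cardinal.lt_aleph_one_iff]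
  simpa using mk_Iio_lt a

lemma countable_Iic (a : W1) : (Iic a).Countable := by
  rw [← Iio_insert]
  exact (countable_Iio a).insert a

lemma not_countable_W1 : ¬ (univ : Set W1).Countable := by
  rw [← Cardinal.le_aleph0_iff_set_countable, Cardinal.mk_univ, mk_W1, not_le]
  exact aleph0_lt_aleph_one

lemma exists_above (S : Set W1) (hS : S.Countable) : ∃ b, ∀ a ∈ S, a < b := by
  by_contra h
  push Not at h
  apply not_countable_W1
  refine (hS.biUnion fun a _ => countable_Iic a).mono fun b _ => ?_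
  obtain ⟨a, ha, hb⟩ := h b
  exact mem_biUnion ha hb

section

variable (x : W1 → ℝ) (K : W1 → Set ℝ)

/-- free finite sets -/
def Free (s : Finset W1) : Prop := ∀ a ∈ s, ∀ b ∈ s, a < b → x b ∉ K a

variable {x K}

lemma root (A : Set (Finset W1)) (hA : ¬ A.Countable) :
    ∃ r : Finset W1, ∀ d : W1, ∃ p ∈ A, r ⊆ p ∧ p ≠ r ∧ ∀ a ∈ p, a ∉ r → d < a := by
  classical
  obtain ⟨n, hn⟩ : ∃ n, ¬ {p ∈ A | p.card = n}.Countable := by
    by_contra h
    push Not at h
    apply hA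
    refine (countable_iUnion h).mono fun p hp => mem_iUnion.2 ?_
    exact ⟨p.card, hp, rfl⟩
  let P : ℕ → Prop := fun k => ∃ r : Finset W1, r.card = k ∧
    ¬ {p ∈ A | p.card = n ∧ r ⊆ p}.Countable
  have hP0 : P 0 := ⟨∅, rfl, by simpa using hn⟩
  have hPb : ∀ k, P k → k ≤ n := by
    rintro k ⟨r, rfl, hr⟩
    obtain ⟨p, -, hp, hrp⟩ : {p ∈ A | p.card = n ∧ r ⊆ p}.Nonempty := by
      by_contra h
      rw [not_nonempty_iff_eq_empty] at h
      exact hr (h ▸ countable_empty)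
    exact hp ▸ Finset.card_le_card hrp
  obtain ⟨r, hr, hr'⟩ : P (Nat.findGreatest P n) := Nat.findGreatest_spec (Nat.zero_le _) hP0
  refine ⟨r, fun d => ?_⟩
  by_contra h
  push Not at h
  apply hr'
  have h1 : ∀ a, a ∉ r → {p ∈ A | p.card = n ∧ insert a r ⊆ p}.Countable := by
    intro a ha
    by_contra hc
    have hP : P (r.card + 1) := ⟨insert a r, Finset.card_insert_of_notMem ha, hc⟩
    have := Nat.le_findGreatest (hPb _ hP) hP
    omega
  refine (((countable_Iic d).mono (inter_subset_left (t := {a | a ∉ r}))).biUnion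
    (fun a ha => h1 a ha.2)).insert r |>.mono ?_
  rintro p ⟨hp, hpn, hrp⟩
  by_cases hpr : p = r
  · exact Or.inl hpr
  · obtain ⟨a, ha, har, had⟩ := h p hp hrp hpr
    exact Or.inr (mem_biUnion (show a ∈ Iic d ∩ {a | a ∉ r} from ⟨had, har⟩)
      ⟨hp, hpn, Finset.insert_subset ha hrp⟩)

lemma core (hK : ∀ a, IsClosed (K a)) (hx : ∀ a b, a < b → x a ∉ K b) (A : Set (Finset W1))
    (hA : ¬ A.Countable) (hF : ∀ p ∈ A, Free x K p) :
    ∃ p ∈ A, ∀ d : W1, ∃ q ∈ A, (∃ a ∈ q, d < a) ∧ Free x K (p ∪ q) := by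
  classical
  obtain ⟨r, hr⟩ := root A hA
  let T : Set ℝ → W1 → Prop := fun V d => ∃ p ∈ A, r ⊆ p ∧ p ≠ r ∧
    ∀ a ∈ p, a ∉ r → d < a ∧ x a ∈ V
  have h1 : ∀ V : Set ℝ, ∃ d, T V d → ∀ d', T V d' := by
    intro V
    by_cases h : ∀ d', T V d'
    · exact ⟨(exists_above ∅ countable_empty).choose, fun _ => h⟩
    · push Not at h
      obtain ⟨d, hd⟩ := h
      exact ⟨d, fun h => absurd h hd⟩
  choose dV hdV using h1
  obtain ⟨d0, hd0⟩ := exists_above (dV '' FU) (FU_countable.image _)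
  obtain ⟨p, hp, hrp, hpr, hpd⟩ := hr d0
  obtain ⟨d1, hd1⟩ := exists_above (p : Set W1) p.countable_toSet
  obtain ⟨p', hp', hrp', -, hpd'⟩ := hr d1
  let C : Set ℝ := ⋃ a ∈ ((p' \ r : Finset W1) : Set W1), K a
  have hC : IsClosed C := (Finset.finite_toSet _).isClosed_biUnion fun a _ => hK a
  obtain ⟨V, hV, hV1, hV2⟩ := exists_FU (K := x '' (p : Set W1)) (U := Cᶜ)
    ((Finset.finite_toSet _).image x).isCompact hC.isOpen_compl (by
      rintro _ ⟨a, ha, rfl⟩ hmem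
      obtain ⟨b, hb, hb'⟩ := mem_iUnion₂.1 hmem
      have hb2 := Finset.mem_sdiff.1 (Finset.mem_coe.1 hb)
      exact hx a b ((hd1 a ha).trans (hpd' b hb2.1 hb2.2)) hb')
  have hT : ∀ d, T V d := hdV V ⟨p, hp, hrp, hpr, fun a ha har =>
    ⟨(hd0 _ (mem_image_of_mem dV hV)).trans (hpd a ha har), hV1 (mem_image_of_mem x ha)⟩⟩
  refine ⟨p', hp', fun d => ?_⟩
  obtain ⟨d2, hd2⟩ := exists_above (insert d (p' : Set W1)) (p'.countable_toSet.insert d)
  obtain ⟨q, hq, hrq, hqr, hq'⟩ := hT d2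
  refine ⟨q, hq, ?_, ?_⟩
  · obtain ⟨a, ha, har⟩ := Finset.exists_of_ssubset (Finset.ssubset_iff_subset_ne.2 ⟨hrq, hqr.symm⟩)
    exact ⟨a, ha, (hd2 d (mem_insert _ _)).trans (hq' a ha har).1⟩
  · intro a ha b hb hab
    have hbq : b ∈ p' ∨ (b ∈ q ∧ b ∉ r) := by
      rcases Finset.mem_union.1 hb with h | h
      · exact Or.inl h
      · by_cases h' : b ∈ r
        · exact Or.inl (hrp' h')
        · exact Or.inr ⟨h, h'⟩
    have haq : a ∈ q ∨ (a ∈ p' ∧ a ∉ r) := by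
      rcases Finset.mem_union.1 ha with h | h
      · by_cases h' : a ∈ r
        · exact Or.inl (hrq h')
        · exact Or.inr ⟨h, h'⟩
      · exact Or.inl h
    rcases hbq with hb1 | hb1
    · by_cases hap : a ∈ p'
      · exact hF p' hp' a hap b hb1 hab
      · exfalso
        have haq' : a ∈ q := by
          rcases haq with h | h
          · exact h
          · exact absurd h.1 hap
        have h2 := (hq' a haq' (fun h => hap (hrp' h))).1
        have h3 := hd2 b (mem_insert_of_mem _ hb1)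
        exact absurd (hab.trans (h3.trans h2)) (lt_irrefl _)
    · rcases haq with ha1 | ha1
      · exact hF q hq a ha1 b hb1.1 hab
      · intro hmem
        exact hV2 (hq' b hb1.1 hb1.2).2
          (mem_biUnion (Finset.mem_coe.2 (Finset.mem_sdiff.2 ha1)) hmem)

variable (x K)

/-- free finite sets extending a given one -/
def FP (r : Finset W1) : Type := {s : Finset W1 // Free x K s ∧ r ⊆ s}

instance (r : Finset W1) : Preorder (FP x K r) where
  le a b := b.1 ⊆ a.1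
  le_refl _ := subset_rfl
  le_trans _ _ _ h h' := Finset.Subset.trans h' h

variable {x K}

theorem exists_free (h : MAi W1) (hK : ∀ a, IsClosed (K a)) (hx : ∀ a b, a < b → x a ∉ K b) :
    ∃ S : Set W1, (∀ d, ∃ a ∈ S, d < a) ∧ ∀ a ∈ S, ∀ b ∈ S, a < b → x b ∉ K a := by
  classical
  obtain ⟨r, hr, hr'⟩ : ∃ r, Free x K r ∧ ∀ q, Free x K q → r ⊆ q → ∀ d, ∃ q', Free x K q' ∧
      q ⊆ q' ∧ ∃ a ∈ q', d < a := by
    by_contra hc
    push Not at hc
    have h1 : ∀ a : W1, ∃ q, Free x K q ∧ a ∈ q ∧ ∃ d, ∀ q', Free x K q' → q ⊆ q' →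
        ∀ a ∈ q', a ≤ d := by
      intro a
      obtain ⟨q, h1, h2, h3⟩ := hc {a} (by
        intro b hb c hc hbc
        rw [Finset.mem_singleton] at hb hc
        rw [hb, hc] at hbc
        exact absurd hbc (lt_irrefl _))
      exact ⟨q, h1, h2 (Finset.mem_singleton_self a), h3⟩
    choose q hq1 hq2 hq3 using h1
    obtain ⟨_, ⟨a, rfl⟩, hp⟩ := core hK hx (range q) (by
      intro hcount
      apply not_countable_W1
      refine (hcount.biUnion fun s _ => s.countable_toSet).mono fun a _ => ?_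
      exact mem_biUnion (mem_range_self a) (hq2 a)) (by rintro _ ⟨a, rfl⟩; exact hq1 a)
    obtain ⟨d, hd⟩ := hq3 a
    obtain ⟨q', -, ⟨b, hb, hdb⟩, hf⟩ := hp d
    exact absurd (hd _ hf Finset.subset_union_left b (Finset.mem_union_right _ hb)) (not_le.2 hdb)
  have : Nonempty (FP x K r) := ⟨⟨r, hr, subset_rfl⟩⟩
  obtain ⟨G, -, hG, hD⟩ := h (FP x K r) (by
      intro A hA
      by_contra hc
      obtain ⟨_, ⟨p, hp, rfl⟩, h1⟩ := core hK hx (Subtype.val '' A)
        (fun h => hc (Set.countable_of_injective_of_countable_image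
          (Subtype.val_injective.injOn) h)) (by rintro _ ⟨p, -, rfl⟩; exact p.2.1)
      obtain ⟨d, hd⟩ := exists_above (p.1 : Set W1) p.1.countable_toSet
      obtain ⟨_, ⟨q, hq, rfl⟩, ⟨a, ha, hda⟩, hf⟩ := h1 d
      have h2 := hA p hp q hq ⟨⟨p.1 ∪ q.1, hf, p.2.2.trans Finset.subset_union_left⟩,
        Finset.subset_union_left, Finset.subset_union_right⟩
      subst h2
      exact absurd ((hd a ha).trans hda) (lt_irrefl _))
    (fun d => {q | ∃ a ∈ q.1, d < a}) (by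
      intro d q
      obtain ⟨q', h1, h2, h3⟩ := hr' q.1 q.2.1 q.2.2 d
      exact ⟨⟨q', h1, q.2.2.trans h2⟩, h3, h2⟩)
  refine ⟨{a | ∃ p ∈ G, a ∈ p.1}, fun d => ?_, ?_⟩
  · obtain ⟨p, hp, q, ⟨a, ha, hda⟩, hpq⟩ := hD d
    exact ⟨a, ⟨p, hp, hpq ha⟩, hda⟩
  · rintro a ⟨p, hp, ha⟩ b ⟨q, hq, hb⟩ hab
    obtain ⟨s, -, h1, h2⟩ := hG p hp q hq
    exact s.2.1 a (h1 ha) b (h2 hb) hab

end

lemma exists_seq (k : Set ℝ → Set ℝ)
    (hk : ∀ C : Set ℝ, C.Countable → ∃ K, IsClosed K ∧ Disjoint C K ∧ (k K).Nonempty) :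
    ∃ (x : W1 → ℝ) (K : W1 → Set ℝ), (∀ a, IsClosed (K a)) ∧ (∀ a, x a ∈ k (K a)) ∧
      ∀ a b, a < b → x a ∉ K b := by
  have h1 : ∀ C : Set ℝ, ∃ p : ℝ × Set ℝ, C.Countable →
      IsClosed p.2 ∧ Disjoint C p.2 ∧ p.1 ∈ k p.2 := by
    intro C
    by_cases hC : C.Countable
    · obtain ⟨K, h1, h2, y, hy⟩ := hk C hC
      exact ⟨(y, K), fun _ => ⟨h1, h2, hy⟩⟩
    · exact ⟨(0, ∅), fun h => absurd h hC⟩
  choose g hg using h1
  let f : W1 → ℝ × Set ℝ := WellFounded.fix (wellFounded_lt (α := W1))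
    (fun b ih => g (range fun a : Iio b => (ih a.1 a.2).1))
  have hf : ∀ b, f b = g (range fun a : Iio b => (f a.1).1) := fun b => by
    simp only [f]
    rw [WellFounded.fix_eq]
  have h2 : ∀ b, IsClosed (f b).2 ∧ Disjoint (range fun a : Iio b => (f a.1).1) (f b).2 ∧
      (f b).1 ∈ k (f b).2 := by
    intro b
    have : Countable (Iio b) := (countable_Iio b).to_subtype
    rw [hf b]
    exact hg _ (countable_range _)
  exact ⟨fun a => (f a).1, fun a => (f a).2, fun a => (h2 a).1, fun a => (h2 a).2.2,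
    fun a b hab => Set.disjoint_left.1 (h2 b).2.1 ⟨⟨a, hab⟩, rfl⟩⟩

theorem no_hull (h : ∀ ι : Type, #ι ≤ ℵ₁ → MAi ι) :
    ¬ ∃ ψ : lebesgueSets → Set ℝ, IsMonotoneHull lebesgueSets ψ := by
  classical
  rintro ⟨ψ, h1, h2⟩
  let k : Set ℝ → Set ℝ := fun A =>
    if hA : NullMeasurableSet A volume then (ψ ⟨Aᶜ, hA.compl⟩)ᶜ else ∅
  have hk1 : ∀ A, NullMeasurableSet A volume →
      MeasurableSet (k A) ∧ k A ⊆ A ∧ volume (A \ k A) = 0 := by
    intro A hA
    simp only [k, dif_pos hA]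
    obtain ⟨e1, e2, e3⟩ := h1 ⟨Aᶜ, hA.compl⟩
    refine ⟨?_, compl_subset_comm.1 e2, ?_⟩
    · rw [BorelSpace.measurable_eq (α := ℝ)]
      exact e1.compl
    · rw [← e3]
      congr 1
      ext y
      simp [and_comm]
  have hk2 : ∀ A B, NullMeasurableSet A volume → NullMeasurableSet B volume → A ⊆ B →
      k A ⊆ k B := by
    intro A B hA hB hAB
    simp only [k, dif_pos hA, dif_pos hB]
    exact compl_subset_compl.2 (h2 ⟨Bᶜ, hB.compl⟩ ⟨Aᶜ, hA.compl⟩ (compl_subset_compl.2 hAB))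
  obtain ⟨x, K, hK, hxK, hx⟩ := exists_seq k (by
    intro C hC
    have hm : MeasurableSet Cᶜ := hC.measurableSet.compl
    have h0 : (0 : ENNReal) < volume Cᶜ := by
      rw [measure_compl hC.measurableSet (by rw [hC.measure_zero]; simp), hC.measure_zero]
      simp
    obtain ⟨K, hK1, hK2, hK3⟩ := hm.exists_lt_isCompact h0
    refine ⟨K, hK2.isClosed, Set.disjoint_left.2 fun y hy hyK => hK1 hyK hy, ?_⟩
    by_contra hne
    rw [not_nonempty_iff_eq_empty] at hne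
    have := (hk1 K hK2.isClosed.measurableSet.nullMeasurableSet).2.2
    rw [hne, sdiff_empty] at this
    exact hK3.ne' this)
  obtain ⟨S, hS1, hS2⟩ := exists_free (h W1 mk_W1.le) hK hx
  have hS : #S ≤ ℵ₁ := (mk_set_le S).trans mk_W1.le
  have hA := nullMeasurable_iUnion (h S hS) (fun a : S => K a) (fun a => (hK a).measurableSet)
  obtain ⟨e1, e2, -⟩ := hk1 _ hA
  obtain ⟨T, hT1, hT2⟩ := countable_subcover (h (S ⊕ ℕ) (by
    rw [mk_sum]
    simp only [lift_id, mk_nat]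
    exact add_le_of_le aleph0_lt_aleph_one.le hS aleph0_lt_aleph_one.le))
    (fun a : S => K a) (fun a => hK a) _ e1 e2
  obtain ⟨d, hd⟩ := exists_above (Subtype.val '' T) (hT1.image _)
  obtain ⟨b, hb, hdb⟩ := hS1 d
  have h3 : x b ∈ k (⋃ a : S, K a) := hk2 _ _ (hK b).measurableSet.nullMeasurableSet hA
    (subset_iUnion (fun a : S => K a) ⟨b, hb⟩) (hxK b)
  obtain ⟨a, ha, ha'⟩ := mem_iUnion₂.1 (hT2 h3)
  exact hS2 a a.2 b hb ((hd _ (mem_image_of_mem _ ha)).trans hdb) ha'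

end Pool.Agent.H952Z.Hull
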