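import Pool.Agent.H952Z.Hull.MA2

/-! Under Martin's axiom the additivity and the cofinality of the null ideal are equal, and then
there is a monotone Borel hull operation on the null ideal. -/

set_option autoImplicit false

namespace Pool.Agent.H952Z.Hull

open MeasureTheory Set Cardinal

lemma univ_not_null : (Set.univ : Set ℝ) ∉ nullSets := by simp [nullSets]

lemma add_mem_of {F : Set (Set ℝ)} (h1 : F ⊆ nullSets) (h2 : #F < addNull) :
    ⋃₀ F ∈ nullSets := by
  by_contra h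
  exact absurd (csInf_le' (show #F ∈ {c | ∃ F : Set (Set ℝ), F ⊆ nullSets ∧ ⋃₀ F ∉ nullSets ∧
    #F = c} from ⟨F, h1, h, rfl⟩)) (not_le.2 h2)

lemma cofinal_sUnion {B : Set (Set ℝ)} (h : ∀ A ∈ nullSets, ∃ C ∈ B, A ⊆ C) :
    ⋃₀ B ∉ nullSets := by
  have : ⋃₀ B = Set.univ := by
    rw [eq_univ_iff_forall]
    intro y
    obtain ⟨C, hC, hy⟩ := h {y} (by simp [nullSets])
    exact ⟨C, hC, hy rfl⟩
  rw [this]
  exact univ_not_null

lemma exists_cof : ∃ B : Set (Set ℝ), B ⊆ nullSets ∧ (∀ A ∈ nullSets, ∃ C ∈ B, A ⊆ C) ∧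
    #B = cofNull :=
  csInf_mem (s := {c | ∃ B : Set (Set ℝ), B ⊆ nullSets ∧ (∀ A ∈ nullSets, ∃ C ∈ B, A ⊆ C) ∧
    #B = c}) ⟨_, nullSets, subset_rfl, fun A hA => ⟨A, hA, subset_rfl⟩, rfl⟩

lemma add_le_cof : addNull ≤ cofNull := by
  obtain ⟨B, h1, h2, h3⟩ := exists_cof
  exact csInf_le' ⟨B, h1, cofinal_sUnion h2, h3⟩

lemma cof_le : cofNull ≤ 𝔠 := by
  have h1 : #{t : Set ℝ | MeasurableSet t} ≤ 𝔠 := by
    have h := MeasurableSpace.cardinal_measurableSet_le_continuum
      (s := TopologicalSpace.countableBasis ℝ)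
      ((Cardinal.le_aleph0_iff_set_countable.2
        (TopologicalSpace.countable_countableBasis ℝ)).trans aleph0_le_continuum)
    rwa [← (TopologicalSpace.isBasis_countableBasis ℝ).borel_eq_generateFrom,
      ← BorelSpace.measurable_eq] at h
  refine le_trans (csInf_le' ⟨{t | MeasurableSet t ∧ volume t = 0}, fun t ht => ht.2,
    fun A hA => ⟨toMeasurable volume A, ⟨measurableSet_toMeasurable _ _, ?_⟩,
      subset_toMeasurable _ _⟩, rfl⟩) ((mk_le_mk_of_subset fun t ht => ht.1).trans h1)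
  rw [measure_toMeasurable]
  exact hA

lemma le_add (h : ∀ ι : Type, #ι < 𝔠 → MAi ι) : 𝔠 ≤ addNull := by
  have hne : {c | ∃ F : Set (Set ℝ), F ⊆ nullSets ∧ ⋃₀ F ∉ nullSets ∧ #F = c}.Nonempty :=
    ⟨_, nullSets, subset_rfl, cofinal_sUnion fun A hA => ⟨A, hA, subset_rfl⟩, rfl⟩
  obtain ⟨F, h1, h2, h3⟩ := csInf_mem hne
  by_contra hc
  push Not at hc
  apply h2
  rw [sUnion_eq_iUnion]
  exact null_iUnion (h F (h3.trans_lt hc)) (fun a : F => a.1) fun a => h1 a.2

theorem add_eq_cof (h : ∀ ι : Type, #ι < 𝔠 → MAi ι) : addNull = cofNull :=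
  le_antisymm add_le_cof (cof_le.trans (le_add h))

theorem hull_null (h : addNull = cofNull) :
    ∃ ψ : nullSets → Set ℝ, IsMonotoneHull nullSets ψ := by
  obtain ⟨B, h1, h2, h3⟩ := exists_cof
  let T := cofNull.ord.ToType
  obtain ⟨e⟩ : Nonempty (T ≃ B) := by
    rw [← Cardinal.eq, h3]; simp [T]
  let N : T → Set ℝ := WellFounded.fix (wellFounded_lt (α := T))
    (fun b ih => toMeasurable volume ((e b).1 ∪ ⋃ a : Iio b, ih a.1 a.2))
  have hN : ∀ b, N b = toMeasurable volume ((e b).1 ∪ ⋃ a : Iio b, N a.1) := fun b => by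
    simp only [N]
    rw [WellFounded.fix_eq]
  have hN0 : ∀ b, volume (N b) = 0 := by
    intro b
    induction b using WellFoundedLT.induction with
    | ind b ih =>
      rw [hN b, measure_toMeasurable]
      refine measure_union_null (h1 (e b).2) ?_
      rw [← sUnion_range]
      refine add_mem_of ?_ (mk_range_le.trans_lt ?_)
      · rintro _ ⟨a, rfl⟩
        exact ih a.1 a.2
      · rw [h]
        simpa [T] using mk_Iio_lt b
  have hmono : ∀ a b, a ≤ b → N a ⊆ N b := by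
    intro a b hab
    rcases hab.eq_or_lt with rfl | hab
    · exact subset_rfl
    · rw [hN b]
      exact ((subset_iUnion (fun a : Iio b => N a.1) ⟨a, hab⟩).trans subset_union_right).trans
        (subset_toMeasurable _ _)
  have hex : ∀ A : nullSets, {b | A.1 ⊆ N b}.Nonempty := by
    intro A
    obtain ⟨C, hC, hAC⟩ := h2 A.1 A.2
    refine ⟨e.symm ⟨C, hC⟩, ?_⟩
    rw [mem_ofPred_eq, hN]
    refine hAC.trans (Subset.trans ?_ (subset_toMeasurable _ _))
    rw [Equiv.apply_symm_apply]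
    exact subset_union_left
  let m : nullSets → T := fun A => wellFounded_lt.min _ (hex A)
  have hm : ∀ A, A.1 ⊆ N (m A) := fun A => wellFounded_lt.min_mem _ (hex A)
  refine ⟨fun A => N (m A), fun A => ⟨?_, hm A, measure_mono_null sdiff_subset (hN0 _)⟩,
    fun A A' hAA' => hmono _ _ ?_⟩
  · rw [← BorelSpace.measurable_eq (α := ℝ)]
    change MeasurableSet (N (m A))
    rw [hN]
    exact measurableSet_toMeasurable _ _
  · exact not_lt.1 (wellFounded_lt.not_lt_min _ (show m A' ∈ {b | A.1 ⊆ N b} from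
      hAA'.trans (hm A')))

theorem zfc_main (h : ∀ ι : Type, #ι < 𝔠 → MAi ι) (hc : (ℵ₁ : Cardinal.{0}) < 𝔠) :
    addNull = cofNull ∧ (∃ ψ : nullSets → Set ℝ, IsMonotoneHull nullSets ψ) ∧
      ¬ ∃ ψ : lebesgueSets → Set ℝ, IsMonotoneHull lebesgueSets ψ :=
  ⟨add_eq_cof h, hull_null (add_eq_cof h), no_hull fun ι hι => h ι (hι.trans_lt hc)⟩

end Pool.Agent.H952Z.Hull
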